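import Pool.Agent.H369R3.UT.Defs

/-!
# Task N of project H369-UT (helper54): the set where a psh function is `-∞` is null
-/

set_option autoImplicit false

open Set Filter Topology Metric MeasureTheory

namespace Pool.Agent.H54.UT

open Pool.Agent.H369R3.UT

theorem trunc_bot {n : ℕ} (φ : Cn n → EReal) (k : ℕ) (x : Cn n) (h : φ x = ⊥) :
    trunc φ k x = -(k : ℝ) := by
  unfold trunc
  rw [h, max_eq_right bot_le, EReal.toReal_coe]

theorem trunc_real {n : ℕ} (φ : Cn n → EReal) (k : ℕ) (x : Cn n) (c : ℝ) (h : φ x = (c : EReal)) :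
    trunc φ k x = max c (-(k : ℝ)) := by
  unfold trunc
  rw [h, ← EReal.coe_strictMono.monotone.map_max, EReal.toReal_coe]

theorem trunc_le {n : ℕ} (φ : Cn n → EReal) (k : ℕ) (x : Cn n) (h : φ x ≠ ⊤) :
    trunc φ k x ≤ trunc φ 0 x := by
  have hk : (0 : ℝ) ≤ k := Nat.cast_nonneg k
  by_cases hb : φ x = ⊥
  · rw [trunc_bot φ k x hb, trunc_bot φ 0 x hb]
    push_cast
    linarith
  · have hc : φ x = ((φ x).toReal : EReal) := (EReal.coe_toReal h hb).symm
    rw [trunc_real φ k x _ hc, trunc_real φ 0 x _ hc]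
    push_cast
    apply max_le_max le_rfl
    linarith

theorem taskN : TaskN := by
  intro hM hD1 hK0 hT n μ _ Ω φ a r hφ ha hr hΩ
  obtain ⟨k1, k2, _, k4, k5, k6, k7, _⟩ := hK0 n μ r hr
  have haΩ : a ∈ Ω := hΩ (mem_closedBall_self hr.le)
  have hRP := hT n Ω φ hφ
  obtain ⟨C, hC0, hC⟩ := (hM n μ Ω (0 : ℕ) (trunc φ 0) a r (hRP 0) hΩ).2.2
  have hCk : ∀ k : ℕ, ∀ x ∈ closedBall a r, trunc φ k x ≤ C := fun k x hx =>
    (trunc_le φ k x (hφ.1 x (hΩ hx))).trans (hC x hx)
  set g : ℕ → Cn n → ℝ := fun k => (closedBall a r).indicator (trunc φ k) with hg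
  have hgm : ∀ k, Measurable (g k) := fun k => (hM n μ Ω k (trunc φ k) a r (hRP k) hΩ).1
  have hgi : ∀ k, Integrable (g k) μ := fun k => (hM n μ Ω k (trunc φ k) a r (hRP k) hΩ).2.1
  have hgC : ∀ k x, g k x ≤ C := by
    intro k x
    by_cases hx : x ∈ closedBall a r
    · rw [hg]
      simp only [Set.indicator_of_mem hx]
      exact hCk k x hx
    · rw [hg]
      simp only [Set.indicator_of_notMem hx]
      exact hC0
  set E : Set (Cn n) := ball a r ∩ ⋂ k : ℕ, {x | g k x ≤ -(k : ℝ)} with hE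
  have hEm : MeasurableSet E := by
    apply measurableSet_ball.inter
    apply MeasurableSet.iInter
    intro k
    exact measurableSet_le (hgm k) measurable_const
  have hsub : ball a r ∩ {x | φ x = ⊥} ⊆ E := by
    rintro x ⟨hx1, hx2⟩
    refine ⟨hx1, Set.mem_iInter.2 fun k => ?_⟩
    show g k x ≤ -(k : ℝ)
    rw [hg]
    simp only [Set.indicator_of_mem (ball_subset_closedBall hx1)]
    rw [trunc_bot φ k x hx2]
  apply measure_mono_null hsub
  -- the set of translations
  set E' : Set (Cn n) := {w | a + w ∈ E} with hE'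
  have hE'm : MeasurableSet E' := hEm.preimage (measurable_const_add a)
  have hEE' : μ E' = μ E := measure_preimage_add μ a E
  rw [← hEE']
  have hki : Integrable (kern (n := n) r) μ := k1.integrable_of_hasCompactSupport k2
  set f : Cn n → ℝ := E'.indicator (kern r) with hf
  have hfi : Integrable f μ := hki.indicator hE'm
  have hf0 : ∀ w, 0 ≤ f w := fun w => Set.indicator_nonneg (fun w _ => k5 w) w
  have hc : ∃ c : ℝ, φ a = (c : EReal) := ⟨(φ a).toReal, (EReal.coe_toReal (hφ.1 a haΩ) ha).symm⟩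
  obtain ⟨c, hc⟩ := hc
  have hmain : ∀ k : ℕ, c * (∫ w, kern (n := n) r w ∂μ) ≤
      C * (∫ w, kern (n := n) r w ∂μ) - (k + C) * ∫ w, f w ∂μ := by
    intro k
    have h1 := hD1 hM n μ Ω k (trunc φ k) a r (hRP k) hΩ a r hr Subset.rfl
    unfold moll at h1
    have h2 : c ≤ trunc φ k a := by
      rw [trunc_real φ k a c hc]
      exact le_max_left _ _
    have h3 : c * (∫ w, kern (n := n) r w ∂μ) ≤ ∫ w, kern r w * g k (a + w) ∂μ := by
      have h4 := h2.trans h1
      rw [inv_mul_eq_div, le_div_iff₀ k4] at h4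
      exact h4
    refine h3.trans ?_
    have h5 : Integrable (fun w => kern r w * g k (a + w)) μ := by
      have h6 : Integrable (fun w => g k (a + w)) μ := (hgi k).comp_add_left a
      refine h6.bdd_mul (c := 1) k1.aestronglyMeasurable (Eventually.of_forall fun w => ?_)
      rw [Real.norm_eq_abs, abs_of_nonneg (k5 w)]
      exact k6 w
    have h7 : Integrable (fun w => C * kern (n := n) r w - (k + C) * f w) μ :=
      (hki.const_mul C).sub (hfi.const_mul _)
    have h8 : ∫ w, (C * kern (n := n) r w - (k + C) * f w) ∂μ =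
        C * (∫ w, kern (n := n) r w ∂μ) - (k + C) * ∫ w, f w ∂μ := by
      rw [integral_sub (hki.const_mul C) (hfi.const_mul _), integral_const_mul, integral_const_mul]
    rw [← h8]
    apply integral_mono h5 h7
    intro w
    show kern r w * g k (a + w) ≤ C * kern (n := n) r w - (k + C) * f w
    by_cases hw : w ∈ E'
    · rw [hf]
      simp only [Set.indicator_of_mem hw]
      have h9 : g k (a + w) ≤ -(k : ℝ) := Set.mem_iInter.1 (hw : a + w ∈ E).2 k
      nlinarith [k5 w]
    · rw [hf]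
      simp only [Set.indicator_of_notMem hw]
      have h9 := hgC k (a + w)
      nlinarith [k5 w]
  have hJ : ∫ w, f w ∂μ = 0 := by
    have hJ0 : 0 ≤ ∫ w, f w ∂μ := integral_nonneg hf0
    by_contra hne
    have hJp : 0 < ∫ w, f w ∂μ := lt_of_le_of_ne hJ0 (Ne.symm hne)
    obtain ⟨k, hk⟩ := exists_nat_gt ((C - c) * (∫ w, kern (n := n) r w ∂μ) / ∫ w, f w ∂μ)
    rw [div_lt_iff₀ hJp] at hk
    have h1 := hmain k
    nlinarith
  have hae := (integral_eq_zero_iff_of_nonneg hf0 hfi).1 hJ
  refine measure_mono_null ?_ hae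
  intro w hw
  show ¬ (f w = 0)
  rw [hf, Set.indicator_of_mem hw]
  have h1 : a + w ∈ ball a r := (hw : a + w ∈ E).1
  have h2 : ‖w‖ < r := by simpa [mem_ball, dist_eq_norm] using h1
  exact ((k7 w).2 h2).ne'

end Pool.Agent.H54.UT
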